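import Pool.Agent.TH395.P5.Stm

set_option autoImplicit false
set_option linter.unusedSectionVars false

/-! # The test of the Petersen minors is sound (job 4408) -/

namespace Pool.Agent.TH928.P5.PET

open Finset Pool.Agent.TH462.T4 Pool.Agent.TH676.T4 Pool.Agent.TH395.P5

variable {V E : Type} [Fintype V] [DecidableEq V] [Fintype E] [DecidableEq E]

theorem adj {src dst : E → V} {n : ℕ} {ed : List (ℕ × ℕ)} {rt : List ℕ} {φ : ℕ → V}
    (h : Emb src dst n ed rt φ) {x y : ℕ} (hxy : adjE ed x y = true) :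
    ∃ e, JV src dst e (φ x) (φ y) := by
  unfold adjE at hxy
  rw [List.any_eq_true] at hxy
  obtain ⟨p, hp, hxy⟩ := hxy
  simp only [Bool.or_eq_true, Bool.and_eq_true, Nat.beq_eq] at hxy
  obtain ⟨e, he⟩ := h.edge p hp
  refine ⟨e, ?_⟩
  rcases hxy with ⟨h1, h2⟩ | ⟨h1, h2⟩
  · rw [← h1, ← h2]; exact he
  · rw [← h1, ← h2]
    unfold JV at he ⊢
    exact he.symm

theorem JoinsSet.mono {src dst : E → V} {e : E} {A B A' B' : Finset V}
    (h : JoinsSet src dst e A B) (hA : A ⊆ A') (hB : B ⊆ B') : JoinsSet src dst e A' B' := by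
  rcases h with ⟨h1, h2⟩ | ⟨h1, h2⟩
  · exact Or.inl ⟨hA h1, hB h2⟩
  · exact Or.inr ⟨hB h1, hA h2⟩

theorem conn_single (src dst : E → V) (z : V) : ConnSet src dst {z} := by
  refine ⟨singleton_nonempty _, fun A hA hA0 hA1 => ?_⟩
  exfalso
  rcases subset_singleton_iff.1 hA with h | h
  · exact hA0.ne_empty h
  · exact hA1 h

theorem conn_insert {src dst : E → V} {S : Finset V} (hS : ConnSet src dst S) {z y : V} (hy : y ∈ S)
    (h : ∃ e, JV src dst e z y) : ConnSet src dst (insert z S) := by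
  obtain ⟨e, he⟩ := h
  refine ⟨insert_nonempty _ _, fun A hA hA0 hA1 => ?_⟩
  by_cases h1 : A ∩ S = ∅
  · have hzA : z ∈ A := by
      obtain ⟨w, hw⟩ := hA0
      rcases mem_insert.1 (hA hw) with h2 | h2
      · rwa [← h2]
      · have h3 : w ∈ A ∩ S := mem_inter.2 ⟨hw, h2⟩
        rw [h1] at h3
        exact absurd h3 (notMem_empty _)
    have hyA : y ∉ A := by
      intro h2
      have h3 : y ∈ A ∩ S := mem_inter.2 ⟨h2, hy⟩
      rw [h1] at h3
      exact notMem_empty _ h3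
    have hyB : y ∈ insert z S \ A := mem_sdiff.2 ⟨mem_insert_of_mem hy, hyA⟩
    refine ⟨e, ?_⟩
    rcases he with ⟨h2, h3⟩ | ⟨h2, h3⟩
    · exact Or.inl ⟨h2 ▸ hzA, h3 ▸ hyB⟩
    · exact Or.inr ⟨h2 ▸ hyB, h3 ▸ hzA⟩
  by_cases h2 : A ∩ S = S
  · have hSA : S ⊆ A := inter_eq_right.1 h2
    have hzA : z ∉ A := by
      intro h3
      exact hA1 (Subset.antisymm hA (insert_subset h3 hSA))
    have hzB : z ∈ insert z S \ A := mem_sdiff.2 ⟨mem_insert_self _ _, hzA⟩
    refine ⟨e, ?_⟩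
    rcases he with ⟨h3, h4⟩ | ⟨h3, h4⟩
    · exact Or.inr ⟨h3 ▸ hzB, h4 ▸ hSA hy⟩
    · exact Or.inl ⟨h3 ▸ hSA hy, h4 ▸ hzB⟩
  · obtain ⟨d, hd⟩ := hS.2 (A ∩ S) inter_subset_right (nonempty_iff_ne_empty.2 h1) h2
    refine ⟨d, JoinsSet.mono hd inter_subset_left ?_⟩
    intro w hw
    rw [mem_sdiff, mem_inter] at hw
    rw [mem_sdiff]
    exact ⟨mem_insert_of_mem hw.1, fun h3 => hw.2 ⟨h3, hw.1⟩⟩

theorem conn_list {src dst : E → V} {n : ℕ} {ed : List (ℕ × ℕ)} {rt : List ℕ} {φ : ℕ → V}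
    (h : Emb src dst n ed rt φ) : ∀ (l acc : List ℕ), connL ed acc l = true →
      (acc = [] ∨ ConnSet src dst (acc.toFinset.image φ)) →
      (l.reverse ++ acc = [] ∨ ConnSet src dst ((l.reverse ++ acc).toFinset.image φ)) := by
  intro l
  induction l with
  | nil => intro acc _ h2; simpa using h2
  | cons x l ih =>
    intro acc h1 h2
    unfold connL at h1
    rw [Bool.and_eq_true, Bool.or_eq_true] at h1
    obtain ⟨h3, h4⟩ := h1
    have h5 : ConnSet src dst ((x :: acc).toFinset.image φ) := by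
      rw [List.toFinset_cons, image_insert]
      by_cases hacc : acc = []
      · subst hacc
        simpa using conn_single src dst (φ x)
      · have h6 := h2.resolve_left hacc
        rcases h3 with h3 | h3
        · exact absurd (List.isEmpty_iff.1 h3) hacc
        · rw [List.any_eq_true] at h3
          obtain ⟨y, hy, hxy⟩ := h3
          exact conn_insert h6 (mem_image_of_mem φ (List.mem_toFinset.2 hy)) (adj h hxy)
    have h6 := ih (x :: acc) h4 (Or.inr h5)
    have h7 : (x :: l).reverse ++ acc = l.reverse ++ (x :: acc) := by simp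
    rw [h7]
    exact h6

theorem noDup_nodup : ∀ l : List ℕ, noDup l = true → l.Nodup := by
  intro l
  induction l with
  | nil => intro _; exact List.nodup_nil
  | cons x l ih =>
    intro h
    unfold noDup at h
    rw [Bool.and_eq_true, List.all_eq_true] at h
    refine List.nodup_cons.2 ⟨fun hx => ?_, ih h.2⟩
    have h1 := h.1 x hx
    simp at h1

theorem pet_sub : ∀ x ∈ petEdges, (((x.1 : Fin 10) : ℕ), ((x.2 : Fin 10) : ℕ)) ∈ petN := by decide

theorem t : Pool.Agent.TH395.P5.S_PET := by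
  intro V E _ _ _ _ src dst φ n ed rt B hE hchk
  unfold petChk at hchk
  simp only [Bool.and_eq_true, Nat.beq_eq, List.all_eq_true] at hchk
  obtain ⟨hlen, hnd, hlt, hconn, hpet⟩ := hchk
  have hnd' := noDup_nodup _ hnd
  rw [List.nodup_flatten] at hnd'
  have hget : ∀ i : Fin 10, ∃ hi : (i : ℕ) < B.length, B.getD i [] = B[(i : ℕ)] := by
    intro i
    have hi : (i : ℕ) < B.length := by rw [hlen]; exact i.2
    exact ⟨hi, List.getD_eq_getElem _ _ hi⟩
  have hmem : ∀ i : Fin 10, B.getD i [] ∈ B := by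
    intro i
    obtain ⟨hi, h1⟩ := hget i
    rw [h1]
    exact List.getElem_mem hi
  have hltn : ∀ i : Fin 10, ∀ x ∈ B.getD i [], x < n := by
    intro i x hx
    have h1 := hlt x (List.mem_flatten.2 ⟨_, hmem i, hx⟩)
    have h2 := Nat.le_of_ble_eq_true h1
    omega
  refine ⟨fun i => (B.getD i []).toFinset.image φ, fun i => ?_, fun i j hij => ?_, fun x hx => ?_⟩
  · obtain ⟨h1, h2⟩ := hconn _ (hmem i)
    have h3 := conn_list hE _ _ h2 (Or.inl rfl)
    have h4 : (B.getD i []) ≠ [] := by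
      intro h5
      rw [h5] at h1
      simp at h1
    have h5 : (B.getD i []).reverse ++ [] ≠ [] := by simpa using h4
    have h6 := h3.resolve_left h5
    have h7 : ((B.getD i []).reverse ++ []).toFinset = (B.getD i []).toFinset := by
      ext w
      simp
    rwa [h7] at h6
  · rw [Finset.disjoint_left]
    intro v hv hv'
    obtain ⟨x, hx, rfl⟩ := mem_image.1 hv
    obtain ⟨y, hy, hyx⟩ := mem_image.1 hv'
    rw [List.mem_toFinset] at hx hy
    have hxy : y = x := hE.inj y x (hltn j y hy) (hltn i x hx) hyx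
    subst hxy
    obtain ⟨hi, h1⟩ := hget i
    obtain ⟨hj, h2⟩ := hget j
    rw [h1] at hx
    rw [h2] at hy
    have h3 := List.pairwise_iff_getElem.1 hnd'.2
    have hne : (i : ℕ) ≠ j := fun h => hij (Fin.ext h)
    rcases lt_or_gt_of_ne hne with h4 | h4
    · exact h3 i j hi hj h4 hx hy
    · exact h3 j i hj hi h4 hy hx
  · have h1 := hpet _ (pet_sub x hx)
    rw [List.any_eq_true] at h1
    obtain ⟨a, ha, h1⟩ := h1
    rw [List.any_eq_true] at h1
    obtain ⟨b, hb, h1⟩ := h1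
    obtain ⟨e, he⟩ := adj hE h1
    refine ⟨e, ?_⟩
    have ha' : φ a ∈ (B.getD x.1 []).toFinset.image φ := mem_image_of_mem φ (List.mem_toFinset.2 ha)
    have hb' : φ b ∈ (B.getD x.2 []).toFinset.image φ := mem_image_of_mem φ (List.mem_toFinset.2 hb)
    rcases he with ⟨h2, h3⟩ | ⟨h2, h3⟩
    · exact Or.inl ⟨h2 ▸ ha', h3 ▸ hb'⟩
    · exact Or.inr ⟨h2 ▸ hb', h3 ▸ ha'⟩

end Pool.Agent.TH928.P5.PET
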